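import Mathlib

/-!
# Module BIG of project CZ (helper17): the specialisation is large and keeps small integers nonzero
-/

set_option autoImplicit false

namespace Pool.Agent.H17.CZ

/-- an element of a subring with inverse in the subring is not mapped to zero -/
theorem map_ne_zero_of_inv_mem {K : Type*} [Field K] (R : Subring K) {k : Type*} [Field k] (φ : R →+* k) (x : R)
    (hx : (x : K) ≠ 0) (hi : (x : K)⁻¹ ∈ R) : φ x ≠ 0 := by
  intro h0
  have h1 : x * ⟨(x : K)⁻¹, hi⟩ = 1 := by
    apply Subtype.ext
    simp [hx]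
  have h2 := congrArg φ h1
  rw [map_mul, h0, zero_mul, map_one] at h2
  exact zero_ne_one h2

/-- The text of `S_BIG`. -/
theorem big (K : Type) [Field K] [Infinite K] (a b : ℕ) (ha : ∀ j : ℕ, 0 < j → j < a → (j : K) ≠ 0) :
    ∃ F : Finset K, ∀ (R : Subring K), (F : Set K) ⊆ R → ∀ (k : Type) [Field k] [Fintype k]
      (_ : R →+* k), (∀ j : ℕ, 0 < j → j < a → (j : k) ≠ 0) ∧ b < Fintype.card k := by
  classical
  obtain ⟨S, -, hS⟩ := Infinite.exists_superset_card_eq (∅ : Finset K) (b + 1) (by simp)
  refine ⟨(Finset.range a).image (fun j : ℕ => (j : K)⁻¹) ∪ (S ∪ (S ×ˢ S).image (fun p => (p.1 - p.2)⁻¹)), ?_⟩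
  intro R hR k _ _ φ
  constructor
  · intro j h0 hj
    have h1 := map_ne_zero_of_inv_mem R φ (j : R) (by simpa using ha j h0 hj) (by
      apply hR
      simp only [Finset.coe_union, Finset.coe_image, Set.mem_union, Set.mem_image]
      left
      exact ⟨j, by simpa using hj, by simp⟩)
    simpa using h1
  · have hSR : ∀ x ∈ S, x ∈ R := by
      intro x hx
      apply hR
      simp [hx]
    have hinj : Function.Injective (fun x : S => φ ⟨x.1, hSR x.1 x.2⟩) := by
      intro x y hxy
      by_contra hne
      have hne' : (x : K) - (y : K) ≠ 0 := by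
        intro h
        exact hne (Subtype.ext (sub_eq_zero.1 h))
      have h1 := map_ne_zero_of_inv_mem R φ (⟨x.1, hSR x.1 x.2⟩ - ⟨y.1, hSR y.1 y.2⟩ : R) (by simpa using hne') (by
        apply hR
        simp only [Finset.coe_union, Finset.coe_image, Set.mem_union, Set.mem_image]
        right; right
        exact ⟨(x.1, y.1), by simp [x.2, y.2], by simp⟩)
      apply h1
      rw [map_sub]
      exact sub_eq_zero.2 hxy
    have h2 := Fintype.card_le_of_injective _ hinj
    rw [Fintype.card_coe, hS] at h2
    omega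

end Pool.Agent.H17.CZ
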