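import Pool.Agent.H49.CZ.Stm
import Pool.Agent.H17.CZ.Big

/-!
# Module BIG of project CZ (helper17)
-/

set_option autoImplicit false

namespace Pool.Agent.H17.CZ

theorem t_BIG : Pool.Agent.H49.CZ.S_BIG := fun K _ _ a b ha => big K a b ha

end Pool.Agent.H17.CZ
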