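import Mathlib

/-!
# Spreading out to finite fields

A subring of a field generated by finitely many elements has a homomorphism to a finite field (helper17, module HOM
of helper49).
-/

set_option autoImplicit false

universe u

namespace Pool.Agent.H17.CZ

/-- `ℤ` is a Jacobson ring. -/
theorem int_jacobson : IsJacobsonRing ℤ := by
  rw [isJacobsonRing_iff_prime_eq]
  intro P hP
  by_cases h : P = ⊥
  · subst h
    refine le_antisymm ?_ (Ideal.le_jacobson)
    intro x hx
    rw [Ideal.mem_jacobson_bot] at hx
    have h1 := hx x
    rw [Int.isUnit_iff] at h1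
    have h2 : x * x = 0 := by
      rcases h1 with h1 | h1
      · linarith
      · nlinarith [mul_self_nonneg x]
    simpa using h2
  · have : P.IsMaximal := IsPrime.to_maximal_ideal h
    exact Ideal.jacobson_eq_self_of_isMaximal

/-- A field of finite type over `ℤ` is finite. -/
theorem finite_of_finiteType (k : Type*) [Field k] [Algebra.FiniteType ℤ k] : Finite k := by
  have := int_jacobson
  have hfin : Module.Finite ℤ k := finite_of_finite_type_of_isJacobsonRing ℤ k
  obtain ⟨p, hp⟩ := CharP.exists k
  have hp0 : p ≠ 0 := by
    rintro rfl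
    have : CharZero k := CharP.charP_to_charZero k
    have hinj : Function.Injective (algebraMap ℤ k) := by
      intro a b h
      simpa using h
    have hint : Algebra.IsIntegral ℤ k := Algebra.IsIntegral.of_finite ℤ k
    exact Int.not_isField (isField_of_isIntegral_of_isField hinj (Field.toIsField k))
  haveI : NeZero p := ⟨hp0⟩
  letI : Algebra (ZMod p) k := ZMod.algebra k p
  haveI : Module.Finite (ZMod p) k := Module.Finite.of_restrictScalars_finite ℤ (ZMod p) k
  exact Module.finite_of_finite (ZMod p)

/-- **HOM.** A subring of a field (or of a nontrivial commutative ring) generated by finitely many elements has a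
homomorphism to a finite field. -/
theorem exists_hom_finite {K : Type u} [CommRing K] [Nontrivial K] (F : Set K) (hF : F.Finite) :
    ∃ (k : Type u) (_ : Field k) (_ : Finite k), Nonempty (Subring.closure F →+* k) := by
  let A := Algebra.adjoin ℤ F
  have hA : Algebra.FiniteType ℤ A := by
    have h1 : (Algebra.adjoin ℤ F).FG := Subalgebra.fg_def.2 ⟨F, hF, rfl⟩
    exact (Subalgebra.fg_iff_finiteType _).1 h1
  have : Nontrivial A := inferInstance
  obtain ⟨m, hm⟩ := Ideal.exists_maximal A
  have h2 : Algebra.FiniteType ℤ (A ⧸ m) :=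
    Algebra.FiniteType.of_surjective (Ideal.Quotient.mkₐ ℤ m) (Ideal.Quotient.mkₐ_surjective ℤ m)
  have h2' : ∀ i : Algebra ℤ (A ⧸ m), @Algebra.FiniteType ℤ (A ⧸ m) _ _ i := by
    intro i
    have : i = Ideal.Quotient.algebra ℤ := Subsingleton.elim _ _
    rw [this]
    exact h2
  letI := Ideal.Quotient.field m
  have h3 : Finite (A ⧸ m) := @finite_of_finiteType (A ⧸ m) (Ideal.Quotient.field m) (h2' _)
  have h4 : Subring.closure F ≤ A.toSubring := Subring.closure_le.2 Algebra.subset_adjoin
  exact ⟨A ⧸ m, inferInstance, h3, ⟨(Ideal.Quotient.mk m).comp (Subring.inclusion h4)⟩⟩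

/-- The text of `S_HOM`. -/
theorem hom (K : Type) [Field K] (F : Finset K) : ∃ (k : Type) (_ : Field k) (_ : Fintype k),
    Nonempty (Subring.closure (F : Set K) →+* k) := by
  obtain ⟨k, i, hk, h⟩ := exists_hom_finite (F : Set K) F.finite_toSet
  exact ⟨k, i, Fintype.ofFinite k, h⟩

end Pool.Agent.H17.CZ
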