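import Pool.Agent.H49.CZ.Stm
import Pool.Agent.H17.CZ.Hom

/-!
# Module HOM of project CZ (helper17)
-/

set_option autoImplicit false

namespace Pool.Agent.H17.CZ

theorem t_HOM : Pool.Agent.H49.CZ.S_HOM := fun K _ F => hom K F

end Pool.Agent.H17.CZ
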